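import Pool.Agent.R459.Fam2
import Pool.Agent.TH823.Fam.Fam2

/-! Products of thin families: all the tuples near almost all tuples of members. -/

set_option autoImplicit false

namespace Pool.Agent.V5helper64.TF
open Finset
open Pool.Agent.H373R2.T7 (SupSmall exI energy ev_L' ev_log')
open Pool.Agent.TH935.GF (En)

/-- the single family theorem with weights indexed by an arbitrary finite type -/
theorem fam_ty (f : ℕ → ℂ) (hf : ∀ n, ‖f n‖ ≤ 1) (hsup : SupSmall f) (p B C K W U : ℕ) :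
    ∃ N0 : ℕ, ∀ N : ℕ, N0 ≤ N → ∀ (ι : Type) [Fintype ι] (v : ι → ℤ), (∀ i, |v i| ≤ B * N) →
    (En p v : ℝ) * N ≤ Real.log N ^ C * (Fintype.card ι : ℝ) ^ (2 * p) →
    ∀ (κ : Type) [Fintype κ], (Fintype.card κ : ℝ) ≤ Real.log N ^ K →
    ∀ (α : ℕ) (g : κ → ℕ → ℂ), 1 ≤ α → (∀ l, ∀ n, ‖g l n‖ ≤ 1) →
    ∀ S : Finset ι,
    (∀ i ∈ S, ∃ t : ℤ, |(t : ℝ)| ≤ Real.log N ^ W ∧ ∃ l, ∃ X : ℕ, α * X ≤ B * N ∧
      (N : ℝ) / Real.log N ^ U < ‖∑ n ∈ Icc 1 X, g l n * exI f (((α * n : ℕ) : ℤ) + (v i + t))‖) →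
    (S.card : ℝ) ≤ Fintype.card ι / Real.log N ^ U := by
  classical
  obtain ⟨N0, h0⟩ := Pool.Agent.R459.fam_near_fin f hf hsup p B C K W U
  obtain ⟨N1, h1⟩ := ev_L' 1
  refine ⟨N0 + N1, fun N hN ι _ v hv hE κ _ hL α g hα hg S hS => ?_⟩
  have hL1 := h1 N (by omega)
  set e := Fintype.equivFin κ with he
  refine h0 N (by omega) ι v hv hE (Fintype.card κ) hL (fun _ => α)
    (fun l n => if hl : l < Fintype.card κ then g (e.symm ⟨l, hl⟩) n else 0) (fun _ _ => hα) ?_ S ?_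
  · intro l hl n _ _
    simp only [hl, dif_pos]
    exact (hg _ _).trans (one_le_pow₀ hL1)
  · intro i hi
    obtain ⟨t, ht, l, X, hX, h2⟩ := hS i hi
    refine ⟨t, ht, e l, (e l).2, X, hX, lt_of_lt_of_eq h2 ?_⟩
    simp

/-- double counting over the lines in the direction `j` -/
lemma line_count {r : ℕ} {ι : Fin r → Type} [∀ j, Fintype (ι j)] [∀ j, DecidableEq (ι j)] (j : Fin r)
    (E : Finset (∀ j, ι j)) (b : ℝ) (hb : 0 ≤ b)
    (h : ∀ i : (∀ j, ι j), ((univ.filter fun t : ι j => Function.update i j t ∈ E).card : ℝ) ≤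
      Fintype.card (ι j) * b) :
    (E.card : ℝ) ≤ Fintype.card (∀ j, ι j) * b := by
  classical
  rcases isEmpty_or_nonempty (ι j) with h0 | h0
  · have : E = ∅ := by
      rw [Finset.eq_empty_iff_forall_notMem]
      intro i
      exact (h0.false (i j)).elim
    rw [this, card_empty, Nat.cast_zero]
    positivity
  have hc : (0 : ℝ) < Fintype.card (ι j) := by exact_mod_cast Fintype.card_pos
  have e1 : ∑ q : (∀ j, ι j) × ι j, (if Function.update q.1 j q.2 ∈ E then (1 : ℝ) else 0) =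
      ∑ q : (∀ j, ι j) × ι j, (if q.1 ∈ E then (1 : ℝ) else 0) := by
    refine Fintype.sum_equiv ⟨fun q => (Function.update q.1 j q.2, q.1 j), fun q => (Function.update q.1 j q.2, q.1 j),
      ?_, ?_⟩ _ _ ?_
    · rintro ⟨i, t⟩
      simp
    · rintro ⟨i, t⟩
      simp
    · rintro ⟨i, t⟩
      simp
  rw [Fintype.sum_prod_type, Fintype.sum_prod_type] at e1
  have e2 : ∑ i : (∀ j, ι j), ∑ _t : ι j, (if i ∈ E then (1 : ℝ) else 0) = E.card * Fintype.card (ι j) := by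
    simp only [sum_const, card_univ, nsmul_eq_mul, ← mul_sum]
    rw [Finset.sum_ite_mem, univ_inter, sum_const, nsmul_eq_mul]
    ring
  have e3 : ∑ i : (∀ j, ι j), ∑ t : ι j, (if Function.update i j t ∈ E then (1 : ℝ) else 0) ≤
      ∑ _i : (∀ j, ι j), (Fintype.card (ι j) * b : ℝ) := by
    apply sum_le_sum
    intro i _
    refine le_trans (le_of_eq ?_) (h i)
    rw [card_filter]
    push_cast
    rfl
  rw [e1, e2, sum_const, card_univ, nsmul_eq_mul] at e3
  nlinarith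

end Pool.Agent.V5helper64.TF
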