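import Pool.Agent.N469.TL.Levels

/-! Averages over smooth residues, absolute values over the moduli. -/

set_option autoImplicit false

namespace Pool.Agent.V5helper64.TF
open Finset
open Pool.Agent.H373R2.T7
open Pool.Agent.Y885 (TLaw)
open Pool.Agent.W93.LV
open Pool.Agent.TH212.EH (W WW)
open Pool.Agent.N469.SM (SS mem_SS one_mem_SS SS_mono card_SS_le card_SS_pos)
open Pool.Agent.N469.TL

/-- the error term in the prime number theorem for progressions -/
noncomputable def Ee (x q a : ℕ) : ℝ :=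
  Fu (fun n => ArithmeticFunction.vonMangoldt n) x q a - (x : ℝ) / Nat.totient q

theorem sm_av (μ : ℤ) (hμ : μ ≠ 0) (Kp Bc A T U Wd : ℕ) (δ : ℝ) (hδ : 0 < δ) : ∃ D N₀ : ℕ, ∀ N, N₀ ≤ N → ∀ P y, Cond δ Kp N P y →
    ∀ (cc : ℤ) (X Q : ℕ), |cc| ≤ Bc * N → (Bc + μ.natAbs + 1) * N ≤ X → (X : ℝ) ≤ N * Real.log X ^ Wd →
      (Q : ℝ) * Real.exp (D * Real.log (Real.log N) ^ 2) ≤ X → ∀ w : ℕ → ℝ, (∀ v, |w v| ≤ Real.log N ^ T) →
      ∀ x : ℕ → ℕ, (∀ m, x m ≤ X) → ∀ a : ℕ → ℤ, (∀ v, |((a v - (cc + μ * v) : ℤ) : ℝ)| ≤ Real.log N ^ A) →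
      ∑ q ∈ Icc 1 Q, (q.divisors.card : ℝ) ^ T * |∑ v ∈ (SS P N).filter (fun v => 0 < a v ∧ (a v).toNat.Coprime q),
        w v * Ee (x q) q (a v).toNat| ≤ (SS P N).card * (X / Real.log N ^ U) := by
  classical
  obtain ⟨U', hU'⟩ : ∃ U', U' = U + A + 1 := ⟨_, rfl⟩
  obtain ⟨V, hV⟩ := Pool.Agent.Y885.tl_levels T U'
  obtain ⟨c, N1, h1⟩ := sm_lawX δ hδ Kp μ hμ Wd V
  obtain ⟨N2, h2⟩ := level Wd
  obtain ⟨D₀, K0, h3⟩ := hV 2 3 8 c le_rfl (by norm_num) (by norm_num)
  obtain ⟨N4, h4⟩ := ev_L' ((16 : ℕ) : ℝ)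
  obtain ⟨N5, h5⟩ := ev_log' A 1
  obtain ⟨Z, hZ⟩ : ∃ Z : ℕ, Z = 2 ^ K0 := ⟨_, rfl⟩
  refine ⟨4 * D₀, N1 + N2 + N4 + N5 + Z + 3, fun N hN P y hP cc X Q hcc hX1 hX2 hQ w hw x hx a ha => ?_⟩
  have hNX : N ≤ X := le_trans (Nat.le_mul_of_pos_left _ (by omega)) hX1
  obtain ⟨q1, q2, q3, e, q4, q5⟩ := h2 N (by omega) X hNX hX2
  have hL4 := h4 N (by omega)
  have hLX0 : 0 < Real.log X := Real.log_pos (by exact_mod_cast (by omega : 1 < X))
  have hL1 : (16 : ℝ) ≤ Real.log N := by exact_mod_cast hL4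
  have hLN0 : 0 < Real.log N := by linarith
  have hX0 : (0 : ℝ) < X := by exact_mod_cast (by omega : 0 < X)
  obtain ⟨K, hK⟩ : ∃ K, K = Nat.clog 2 (4 * X) := ⟨_, rfl⟩
  have hlogK : Real.log N ≤ K := by
    refine (log_digits N (by omega)).1.trans ?_
    rw [hK, q4]
    exact_mod_cast Nat.le_add_right _ _
  have hK0 : (0 : ℝ) < K := by linarith
  have hK5 : (K : ℝ) ≤ Real.log N ^ 2 := by
    have a1 : ((2 ^ K : ℕ) : ℝ) ≤ 8 * X := by rw [hK]; exact_mod_cast q2
    have a2 := Real.log_le_log (by positivity) a1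
    push_cast at a2
    rw [Real.log_pow, Real.log_mul (by norm_num) hX0.ne'] at a2
    have a3 : Real.log 8 ≤ 3 := by
      rw [show (8 : ℝ) = 2 ^ 3 by norm_num, Real.log_pow]
      have := Real.log_two_lt_d9
      push_cast
      linarith
    have a4 := Real.log_two_gt_d9
    have a5 : (K : ℝ) * 0.5 ≤ K * Real.log 2 := mul_le_mul_of_nonneg_left (by linarith) hK0.le
    nlinarith
  have hKl : Real.log K ^ 2 ≤ 4 * Real.log (Real.log N) ^ 2 := by
    have a1 : 0 ≤ Real.log K := Real.log_natCast_nonneg _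
    have a2 : Real.log K ≤ 2 * Real.log (Real.log N) := by
      have := Real.log_le_log hK0 hK5
      rw [Real.log_pow] at this
      exact_mod_cast this
    calc Real.log K ^ 2 ≤ (2 * Real.log (Real.log N)) ^ 2 := pow_le_pow_left₀ a1 a2 2
      _ = _ := by ring
  have hQ' : (Q : ℝ) * Real.exp ((D₀ : ℝ) * Real.log K ^ 2) ≤ X := by
    refine le_trans ?_ hQ
    apply mul_le_mul_of_nonneg_left _ (Nat.cast_nonneg _)
    apply Real.exp_le_exp.2
    push_cast
    nlinarith [Nat.cast_nonneg (α := ℝ) D₀]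
  obtain ⟨M, hM⟩ : ∃ M, M = ⌊Real.log N ^ A⌋₊ := ⟨_, rfl⟩
  have hMN : M ≤ N := by
    rw [hM]
    apply Nat.floor_le_of_le
    have a1 := h5 N (by omega)
    rw [one_mul] at a1
    refine a1.trans ?_
    rw [Real.sqrt_le_left (by positivity)]
    have : (1 : ℝ) ≤ N := by exact_mod_cast (by omega : 1 ≤ N)
    nlinarith
  have hMr : (M : ℝ) ≤ Real.log N ^ A := by rw [hM]; exact Nat.floor_le (by positivity)
  have hkey : ∀ r ∈ Icc (-(M : ℤ)) M, _ := fun r hr => h3 K (by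
      rw [hK, q4]
      have : K0 ≤ Nat.log 2 N := (Nat.le_log_iff_pow_le (by norm_num) (by omega)).2 (by rw [← hZ]; omega)
      omega) ℕ (SS P N) (fun _ => 1 / ((SS P N).card : ℝ)) (fun v => (cc + r) + ((1 : ℕ) : ℤ) * (μ * (v : ℤ)))
      (by rw [hK]; exact h1 N (by omega) P y hP.primes hP.one hP.top hP.card X hNX hX2 1 le_rfl (Nat.one_le_pow _ _ (by omega)) (cc + r))
      X (by rw [hK]; exact q1) (by rw [hK]; exact q2) (by
      intro v hv
      have a1 := abs_val μ Bc N v cc hcc (mem_SS.1 hv).1.2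
      rw [mem_Icc] at hr
      have a2 : |r| ≤ N := by
        rw [abs_le]
        have : (M : ℤ) ≤ N := by exact_mod_cast hMN
        constructor <;> linarith
      have a3 : |(cc + μ * (v : ℤ)) + r| ≤ |cc + μ * (v : ℤ)| + |r| := abs_add_le _ _
      have a4 : (((Bc + μ.natAbs + 1) * N : ℕ) : ℤ) ≤ X := by exact_mod_cast hX1
      rw [show (cc + r) + ((1 : ℕ) : ℤ) * (μ * (v : ℤ)) = (cc + μ * (v : ℤ)) + r by push_cast; ring]
      push_cast at a4 a1
      linarith) Q hQ'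
  have hcard : (0 : ℝ) < ((SS P N).card : ℝ) := by exact_mod_cast card_SS_pos P (by omega)
  -- the weights which belong to the shift `r`
  have hone : ∀ r ∈ Icc (-(M : ℤ)) M, ∑ q ∈ Icc 1 Q, (q.divisors.card : ℝ) ^ T *
      |∑ v ∈ (SS P N).filter (fun v => 0 < a v ∧ (a v).toNat.Coprime q),
        (if a v = (cc + r) + ((1 : ℕ) : ℤ) * (μ * (v : ℤ)) then w v else 0) * Ee (x q) q (a v).toNat| ≤
          (SS P N).card * (X / (K : ℝ) ^ U') := by
    intro r hr
    have g1 := (hkey r hr).2 (fun v => if a v = (cc + r) + ((1 : ℕ) : ℤ) * (μ * (v : ℤ)) then w v else 0) (by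
      intro v
      split_ifs
      · exact (hw v).trans (pow_le_pow_left₀ hLN0.le hlogK _)
      · rw [abs_zero]; positivity) x hx (fun q => Classical.decPred _)
    have g2 := mul_le_mul_of_nonneg_left g1 hcard.le
    refine le_trans (le_of_eq ?_) g2
    rw [mul_sum]
    apply sum_congr rfl
    intro q _
    rw [mul_left_comm]
    congr 1
    rw [← abs_of_pos hcard, ← abs_mul, abs_of_pos hcard, mul_sum]
    congr 1
    rw [sum_filter, sum_filter]
    apply sum_congr rfl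
    intro v _
    by_cases h6 : a v = (cc + r) + ((1 : ℕ) : ℤ) * (μ * (v : ℤ))
    · rw [if_pos h6]
      have hc : (0 < (cc + r) + ((1 : ℕ) : ℤ) * (μ * (v : ℤ)) ∧
          ((cc + r) + ((1 : ℕ) : ℤ) * (μ * (v : ℤ))).toNat.Coprime q) ↔ (0 < a v ∧ (a v).toNat.Coprime q) := by rw [h6]
      unfold Ee
      by_cases h7 : 0 < a v ∧ (a v).toNat.Coprime q
      · rw [if_pos h7, if_pos (hc.2 h7), ← h6]
        field_simp
      · rw [if_neg h7, if_neg (fun h8 => h7 (hc.1 h8))]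
    · rw [if_neg h6]
      simp
  have hsplit : ∀ q ∈ Icc 1 Q, (q.divisors.card : ℝ) ^ T * |∑ v ∈ (SS P N).filter (fun v => 0 < a v ∧ (a v).toNat.Coprime q),
      w v * Ee (x q) q (a v).toNat| ≤ ∑ r ∈ Icc (-(M : ℤ)) M, (q.divisors.card : ℝ) ^ T *
      |∑ v ∈ (SS P N).filter (fun v => 0 < a v ∧ (a v).toNat.Coprime q),
        (if a v = (cc + r) + ((1 : ℕ) : ℤ) * (μ * (v : ℤ)) then w v else 0) * Ee (x q) q (a v).toNat| := by
    intro q _
    rw [← mul_sum]
    apply mul_le_mul_of_nonneg_left _ (by positivity)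
    refine le_trans (le_of_eq ?_) (abs_sum_le_sum_abs _ _)
    congr 1
    rw [sum_comm]
    apply sum_congr rfl
    intro v _
    rw [← sum_mul]
    congr 1
    have h6 : a v - (cc + μ * v) ∈ Icc (-(M : ℤ)) M := by
      have h7 := ha v
      have h8 : ((a v - (cc + μ * v)).natAbs : ℝ) ≤ Real.log N ^ A := by
        rw [Nat.cast_natAbs]
        push_cast at h7 ⊢
        exact h7
      have h9 : (a v - (cc + μ * v)).natAbs ≤ M := by
        rw [hM]
        exact Nat.le_floor h8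
      rw [mem_Icc]
      omega
    rw [sum_eq_single_of_mem _ h6]
    · rw [if_pos]
      push_cast
      ring
    · intro r _ hr
      rw [if_neg]
      intro h7
      apply hr
      rw [h7]
      push_cast
      ring
  refine (sum_le_sum hsplit).trans ?_
  rw [sum_comm]
  refine (sum_le_sum hone).trans ?_
  rw [sum_const, nsmul_eq_mul, Int.card_Icc]
  have h6 : (((M : ℤ) + 1 - -(M : ℤ)).toNat : ℝ) ≤ (K : ℝ) ^ (A + 1) := by
    have h7 : ((M : ℤ) + 1 - -(M : ℤ)).toNat = 2 * M + 1 := by omega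
    rw [h7]
    have h8 : (1 : ℝ) ≤ Real.log N ^ A := one_le_pow₀ (by linarith)
    have h9 : Real.log N ^ A ≤ (K : ℝ) ^ A := pow_le_pow_left₀ hLN0.le hlogK _
    push_cast
    rw [pow_succ]
    calc 2 * (M : ℝ) + 1 ≤ 3 * (K : ℝ) ^ A := by linarith
      _ ≤ K * (K : ℝ) ^ A := by
          apply mul_le_mul_of_nonneg_right _ (by positivity)
          linarith
      _ = _ := by ring
  calc (((M : ℤ) + 1 - -(M : ℤ)).toNat : ℝ) * ((SS P N).card * (X / (K : ℝ) ^ U')) ≤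
      (K : ℝ) ^ (A + 1) * ((SS P N).card * (X / (K : ℝ) ^ U')) :=
        mul_le_mul_of_nonneg_right h6 (by positivity)
    _ = (SS P N).card * (X / (K : ℝ) ^ U) := by
        rw [hU', show U + A + 1 = (A + 1) + U by ring, pow_add (K : ℝ) (A + 1) U]
        field_simp
    _ ≤ _ := by
        apply mul_le_mul_of_nonneg_left _ hcard.le
        apply div_le_div_of_nonneg_left hX0.le (by positivity)
        exact pow_le_pow_left₀ hLN0.le hlogK _

end Pool.Agent.V5helper64.TF
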